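import Pool.Agent.KS6_3.ZL.H707R3.TowerL

/-! Splitting of Euler products (project ZT, helper278). -/

set_option autoImplicit false

namespace Pool.Agent.H278R3.ZT

open Pool.Agent PowerSeries
open scoped PowerSeries.WithPiTopology

variable {p : ℕ} [Fact p.Prime]

theorem multipliable_geom {ι : Type} (a : ι → ℂ_[p]) (d : ι → ℕ)
    (hfin : ∀ k, {v | d v ≤ k}.Finite) : Multipliable (fun v => H707R3.geom (a v) (d v)) := by
  classical
  let L : PowerSeries ℂ_[p] := PowerSeries.mk fun k =>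
    coeff k (∏ v ∈ (hfin k).toFinset, H707R3.geom (a v) (d v))
  have hL : HasProd (fun v => H707R3.geom (a v) (d v)) L := by
    rw [HasProd, WithPiTopology.tendsto_iff_coeff_tendsto]
    intro k
    refine tendsto_const_nhds.congr' ?_
    rw [SummationFilter.unconditional_filter]
    filter_upwards [Filter.eventually_ge_atTop (hfin k).toFinset] with s hs
    rw [coeff_mk]
    symm
    apply H707R3.coeff_prod_eq _ _ hs
    intro i hi
    apply H707R3.X_pow_dvd_geom_sub_one
    have := (Finset.mem_sdiff.1 hi).2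
    simp only [Set.Finite.mem_toFinset, Set.mem_ofPred_eq] at this
    omega
  exact ⟨L, hL⟩

theorem inv_factor (d : ℕ) (hd : d ≠ 0) :
    (1 - X ^ d : PowerSeries ℂ_[p])⁻¹ = H707R3.geom 1 d := by
  rw [← H707R3.inv_eq_geom (1 : ℂ_[p]) hd, map_one, one_mul]

theorem factor_mul_geom (d : ℕ) (hd : d ≠ 0) :
    (1 - X ^ d : PowerSeries ℂ_[p]) * H707R3.geom 1 d = 1 := by
  have := H707R3.one_sub_mul_geom (1 : ℂ_[p]) hd
  rwa [map_one, one_mul] at this

/-- the Euler product attached to a family of degrees -/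
noncomputable def zd (p : ℕ) [Fact p.Prime] {ι : Type} (d : ι → ℕ) : PowerSeries ℂ_[p] :=
  ∏' v, (1 - X ^ d v)⁻¹

theorem zd_eq {ι : Type} (d : ι → ℕ) (hd : ∀ v, d v ≠ 0) :
    zd p d = ∏' v, H707R3.geom (1 : ℂ_[p]) (d v) := by
  unfold zd
  congr 1
  funext v
  exact inv_factor (d v) (hd v)

/-- splitting off finitely many factors -/
theorem zd_split {ι : Type} (d : ι → ℕ) (hd : ∀ v, d v ≠ 0) (hfin : ∀ k, {v | d v ≤ k}.Finite)
    (s : Set ι) (hs : sᶜ.Finite) :
    zd p (fun v : s => d v) = zd p d * ∏ v ∈ hs.toFinset, (1 - X ^ d v) := by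
  classical
  have hT2 : T2Space (PowerSeries ℂ_[p]) := WithPiTopology.instT2Space ℂ_[p]
  have hfin' : ∀ k, {v : s | d v ≤ k}.Finite := by
    intro k
    exact (hfin k).preimage Subtype.val_injective.injOn
  have h1 : HasProd ((fun v => H707R3.geom (1 : ℂ_[p]) (d v)) ∘ ((↑) : s → ι))
      (zd p (fun v : s => d v)) := by
    rw [zd_eq (fun v : s => d v) (fun v => hd v)]
    exact (multipliable_geom (fun _ : s => (1 : ℂ_[p])) (fun v : s => d v) hfin').hasProd
  have hft : Fintype (sᶜ : Set ι) := hs.fintype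
  have h2 : HasProd ((fun v => H707R3.geom (1 : ℂ_[p]) (d v)) ∘ ((↑) : (sᶜ : Set ι) → ι))
      (∏ v ∈ hs.toFinset, H707R3.geom (1 : ℂ_[p]) (d v)) := by
    have h3 := hasProd_fintype ((fun v => H707R3.geom (1 : ℂ_[p]) (d v)) ∘ ((↑) : (sᶜ : Set ι) → ι))
    convert h3 using 1
    rw [← Finset.prod_coe_sort]
    apply Fintype.prod_equiv (Equiv.subtypeEquivRight (fun x => by simp))
    intro x
    rfl
  have h3 := h1.mul_compl h2
  have h4 : zd p d = zd p (fun v : s => d v) *
      ∏ v ∈ hs.toFinset, H707R3.geom (1 : ℂ_[p]) (d v) := by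
    rw [zd_eq d hd]
    exact h3.tprod_eq
  rw [h4, mul_assoc, ← Finset.prod_mul_distrib]
  rw [Finset.prod_congr rfl (fun v _ => by
    rw [mul_comm, factor_mul_geom (d v) (hd v)] : ∀ v ∈ hs.toFinset,
      H707R3.geom (1 : ℂ_[p]) (d v) * (1 - X ^ d v) = 1)]
  rw [Finset.prod_const_one, mul_one]

end Pool.Agent.H278R3.ZT
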