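import Pool.Agent.KS6_3.ZL.H387R3.ZT.Stmts

/-! Corrected form of task F of project ZT (helper278). -/

set_option autoImplicit false

namespace Pool.Agent.H278R3.ZT

open Pool.Agent Pool.Agent.H387R3.ZT

/-- (F), corrected: characters of large order are not trivial on divisors of degree `0`. The bound
`N` depends only on the tower. -/
def TaskF2 : Prop :=
  ∀ (p : ℕ) [Fact p.Prime] (k F E : Type) [Field k] [Finite k] [CharP k p] [Field F] [Algebra k F]
    [Field E] [Algebra F E] [Algebra k E] [IsScalarTower k F E], H707R3.IsZpTower k F E p →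
    ∃ N : ℕ, ∀ (K : ℕ → IntermediateField F E) (A : ℕ → Multiset ℂ_[p]), Named k F E K A →
    ∀ (n : ℕ) (χ : (E ≃ₐ[F] E) →* ℂ_[p]ˣ), N ≤ n → orderOf χ = p ^ n → HasD0 k χ

end Pool.Agent.H278R3.ZT
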