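import Pool.Agent.KS6_3.ZL.H278R3.ZT.Layer

/-! The layers of a `ℤ_p`-tower are curves (project ZT, helper278). -/

set_option autoImplicit false

namespace Pool.Agent.H278R3.ZT

open Pool.Agent

variable {p : ℕ} [Fact p.Prime] {k F E : Type} [Field k] [Field F] [Algebra k F]
  [Field E] [Algebra F E] [Algebra k E] [IsScalarTower k F E]

theorem curve_of_finite {M : Type} [Field M] [Algebra k M] [Algebra F M] [IsScalarTower k F M]
    [FiniteDimensional F M] (hF : H707R3.IsCurveFunctionField k F)
    (hc : ∀ y : M, IsAlgebraic k y → y ∈ (algebraMap k M).range) :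
    H707R3.IsCurveFunctionField k M := by
  have h1 := hF.essFiniteType
  refine ⟨Algebra.EssFiniteType.comp k F M, ?_, hc⟩
  have h2 := _root_.trdeg_add_eq (R := k) (S := F) (A := M)
  rw [hF.trdeg_eq_one, _root_.trdeg_eq_zero (R := F) (A := M), add_zero] at h2
  exact h2.symm

theorem layer_curve (h : H707R3.IsZpTower k F E p) (K : IntermediateField F E)
    [FiniteDimensional F K] : H707R3.IsCurveFunctionField k K := by
  apply curve_of_finite h.base
  have htow : IsScalarTower k K E := .of_algebraMap_eq fun _ => rfl
  intro y hy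
  have h1 : IsAlgebraic k (algebraMap K E y) := hy.algebraMap
  obtain ⟨a, ha⟩ := h.algClosed _ h1
  refine ⟨a, ?_⟩
  apply (algebraMap K E).injective
  rw [← ha, ← IsScalarTower.algebraMap_apply]

end Pool.Agent.H278R3.ZT
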